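import Pool.Agent.H66.AV.TF

/-!
# Row GZA of the board avh_modules: one of the tables is changed
-/

set_option autoImplicit false

namespace Pool.Agent.H69.AVH

open Finset Pool.Agent.H6.NB Pool.Agent.H70.OQ Pool.Agent.H70.EH Pool.Agent.H70.EI Pool.Agent.H78.XQ
open Pool.Agent.H66.AV

/-- the strings of the tables determine the place -/
theorem gza_inj (hAST : Pool.Agent.H66.AV.T_AST) {M : ℕ}
    (y y' : Σ t : Fin M × Fin M, (Fin t.2.1 → Bool) × Nn t.2.1 t.1.1)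
    (h : astr y.1.2.1 y.1.1.1 y.2.1 y.2.2 = astr y'.1.2.1 y'.1.1.1 y'.2.1 y'.2.2) : y = y' := by
  obtain ⟨⟨⟨k, hk⟩, ⟨n, hn⟩⟩, x, q⟩ := y
  obtain ⟨⟨⟨k', hk'⟩, ⟨n', hn'⟩⟩, x', q'⟩ := y'
  obtain ⟨h1, h2⟩ := hAST.2.2 _ _ _ _ _ _ _ _ h
  simp only at h1 h2
  subst h1
  subst h2
  obtain ⟨h3, h4⟩ := hAST.2.1 _ _ _ _ _ _ h
  simp only at h3 h4
  subst h3
  subst h4
  rfl

/-- the value of the default oracle at the strings of the tables -/
theorem gza_at (hAST : Pool.Agent.H66.AV.T_AST) {M : ℕ} (z : Za M)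
    (y : Σ t : Fin M × Fin M, (Fin t.2.1 → Bool) × Nn t.2.1 t.1.1) :
    gza M z (astr y.1.2.1 y.1.1.1 y.2.1 y.2.2) = tbl (z y.1) y.2.1 y.2.2 := by
  have h : ∃ y' : Σ t : Fin M × Fin M, (Fin t.2.1 → Bool) × Nn t.2.1 t.1.1,
      astr y.1.2.1 y.1.1.1 y.2.1 y.2.2 = astr y'.1.2.1 y'.1.1.1 y'.2.1 y'.2.2 := ⟨y, rfl⟩
  unfold gza
  rw [dif_pos h]
  have h1 : h.choose = y := (gza_inj hAST _ _ h.choose_spec).symm
  rw [h1]

/-- the other strings -/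
theorem gza_no {M : ℕ} (z : Za M) (w : List Bool)
    (h : ¬ ∃ y : Σ t : Fin M × Fin M, (Fin t.2.1 → Bool) × Nn t.2.1 t.1.1,
      w = astr y.1.2.1 y.1.1.1 y.2.1 y.2.2) : gza M z w = false := by
  unfold gza
  rw [dif_neg h]

/-- the value of the oracle with tables -/
theorem ovl_at (hAST : Pool.Agent.H66.AV.T_AST) (n k : ℕ) (g : List Bool → Bool)
    (T : (Fin n → Bool) → Nn n k → Bool) (x : Fin n → Bool) (q : Nn n k) :
    ovl n k g T (astr n k x q) = T x q := by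
  have h : ∃ y : (Fin n → Bool) × Nn n k, astr n k x q = astr n k y.1 y.2 := ⟨(x, q), rfl⟩
  unfold ovl
  rw [dif_pos h]
  obtain ⟨h1, h2⟩ := hAST.2.1 _ _ _ _ _ _ h.choose_spec
  rw [← h1, ← h2]

/-- the other strings -/
theorem ovl_no (n k : ℕ) (g : List Bool → Bool) (T : (Fin n → Bool) → Nn n k → Bool)
    (w : List Bool) (h : ¬ ∃ y : (Fin n → Bool) × Nn n k, w = astr n k y.1 y.2) :
    ovl n k g T w = g w := by
  unfold ovl
  rw [dif_neg h]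

theorem pf_GZA (hAST : Pool.Agent.H66.AV.T_AST) : T_GZA := by
  intro M z t c
  funext w
  by_cases h : ∃ y : Σ t : Fin M × Fin M, (Fin t.2.1 → Bool) × Nn t.2.1 t.1.1,
      w = astr y.1.2.1 y.1.1.1 y.2.1 y.2.2
  · obtain ⟨y, rfl⟩ := h
    rw [gza_at hAST]
    by_cases h1 : y.1 = t
    · subst h1
      rw [Function.update_self, ovl_at hAST]
    · rw [Function.update_of_ne h1, ovl_no, gza_at hAST]
      rintro ⟨y', h2⟩
      obtain ⟨h3, h4⟩ := hAST.2.2 _ _ _ _ _ _ _ _ h2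
      exact h1 (Prod.ext (Fin.ext h4) (Fin.ext h3))
  · rw [gza_no _ _ h, ovl_no, gza_no _ _ h]
    rintro ⟨y', h2⟩
    exact h ⟨⟨t, y'⟩, h2⟩

end Pool.Agent.H69.AVH
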